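import Pool.Agent.U498.AC.Whit

/-!
# Closed smooth 4-manifolds and asymptotically affine homeomorphisms

Let `M` and `N` be closed smooth 4-manifolds, `M` connected, for instance two smooth manifolds
homeomorphic to `S¹ × S³` or to the twisted product, `N` smoothly embedded in some `ℝ^d` by `e`, and
`g : M → N` a homeomorphism. Suppose that at every point `x` of `M` either `g` is a local
diffeomorphism or `e ∘ g` is asymptotically affine: in some smooth parametrization `A` of a
neighbourhood of `x = A 0`, for every `ε > 0`, on all balls of small radius `r` with centre near `0`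
some affine map `p ↦ a + L p` satisfies

`|e g A p - (a + L p)| ≤ ε r |L v|` for all unit vectors `v`.

Then `M` and `N` are diffeomorphic; the diffeomorphism can be chosen equal to `g` off any given open
set which contains the points where `g` is not a local diffeomorphism, and arbitrarily close to `g`.

The linear parts may turn for ever, their norm may tend to `0` or to `∞` and their distortion to `∞`
as the scale tends to `0`. The homotopy type of the manifolds plays no role.
-/

set_option autoImplicit false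

open Set Filter Topology Metric Function
open scoped Manifold ContDiff

namespace Pool.Agent.Results.MP_6db3ee_gt.AsymptoticallyAffine

/-- `ℝ⁴` -/
abbrev R4 : Type := EuclideanSpace ℝ (Fin 4)

section defs

variable {M N : Type} [TopologicalSpace M] [TopologicalSpace N] [ChartedSpace R4 M]
  [ChartedSpace R4 N]

/-- `f` is a local diffeomorphism at `x` -/
def LocDiff (f : M → N) (x : M) : Prop := IsLocalDiffeomorphAt (𝓡 4) (𝓡 4) ∞ f x

/-- the differential of `e : N → ℝ^d` (computed in the preferred chart at the point) is injective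
at every point -/
def IsImmersed {d : ℕ} (e : N → EuclideanSpace ℝ (Fin d)) : Prop :=
  ∀ (y : N) (v : R4),
    fderiv ℝ (fun t => e ((chartAt R4 y).symm t)) (chartAt R4 y y) v = 0 → v = 0

/-- `e : N → ℝ^d` is smooth and injective with injective differentials -/
def IsEmbeddingOf {d : ℕ} (e : N → EuclideanSpace ℝ (Fin d)) : Prop :=
  ContMDiff (𝓡 4) (𝓡 d) ∞ e ∧ Injective e ∧ IsImmersed e

/-- `Φ` is a diffeomorphism: a bijective local diffeomorphism -/
def IsDiffeo (Φ : M → N) : Prop := Bijective Φ ∧ ∀ x, LocDiff Φ x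

/-- `f : M → ℝ^d` is asymptotically affine at `x`: in a smooth parametrization `A` of a
neighbourhood of `x = A 0`, for every `ε > 0`, on every ball of small radius `r` around a point `y`
near `0` some affine map `p ↦ a + L p` differs from `f ∘ A` by at most `ε r |L v|`, for every unit
vector `v` -/
def AsymptoticallyAffineAt {d : ℕ} (f : M → EuclideanSpace ℝ (Fin d)) (x : M) : Prop :=
  ∃ A : R4 → M, A 0 = x ∧ LocDiff A 0 ∧ ∀ ε > 0, ∃ δ > 0, ∀ (y : R4) (r : ℝ),
    ‖y‖ ≤ δ → 0 < r → r ≤ δ →
      ∃ (a : EuclideanSpace ℝ (Fin d)) (L : R4 →L[ℝ] EuclideanSpace ℝ (Fin d)),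
        ∀ p, ‖p - y‖ ≤ r → ∀ v, ‖v‖ = 1 → ‖f (A p) - (a + L p)‖ ≤ ε * (r * ‖L v‖)

/-- there is a diffeomorphism equal to `g` off `U` and `ε`-close to `g` (distances in `ℝ^d`) -/
def Approximated {d : ℕ} (e : N → EuclideanSpace ℝ (Fin d)) (g : M → N) (U : Set M) (ε : ℝ) :
    Prop :=
  ∃ Φ : M → N, IsDiffeo Φ ∧ (∀ x, x ∉ U → Φ x = g x) ∧ ∀ x, ‖e (Φ x) - e (g x)‖ ≤ ε

end defs

theorem result (M N : Type) [TopologicalSpace M] [TopologicalSpace N] [ChartedSpace R4 M]
    [ChartedSpace R4 N] [IsManifold (𝓡 4) ∞ M] [IsManifold (𝓡 4) ∞ N] [T2Space M] [T2Space N]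
    [CompactSpace M] [CompactSpace N] [ConnectedSpace M]
    (d : ℕ) (e : N → EuclideanSpace ℝ (Fin d)) (he : IsEmbeddingOf e) (g : M ≃ₜ N)
    (hg : ∀ x, LocDiff g x ∨ AsymptoticallyAffineAt (fun x => e (g x)) x)
    (U : Set M) (hU : IsOpen U) (hgU : ∀ x, x ∉ U → LocDiff g x)
    (ε : ℝ) (hε : 0 < ε) : Approximated e g U ε := by
  obtain ⟨Φ, h1, h2, h3, h4⟩ :=
    Pool.Agent.U498.AC.closed_mainA e he.1 he.2.1 he.2.2 g hU hgU (fun x hn => by
      rcases hg x with h | ⟨A, hA0, hAd, h⟩
      · exact absurd h hn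
      · exact ⟨A, hA0, hAd, h⟩) hε
  exact ⟨Φ, ⟨h1, h2⟩, h3, h4⟩

end Pool.Agent.Results.MP_6db3ee_gt.AsymptoticallyAffine
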