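import Pool.Agent.U898.SB.Main

/-!
# Collapsing maps onto 3-sphere bundles over the circle

Let `N` be the quotient of `ℝ × S³` by the map `(t, u) ↦ (t + 1, ρ u)`, `ρ` a diffeomorphism of `S³`
(`ρ = id`: `S¹ × S³`, `ρ` a reflection: the twisted product), and let `M` be a closed smooth
4-manifold. We consider continuous surjections `f : M → N` which need not be injective (and `M` is
not assumed to be homeomorphic to `N`). The assumption is that there is a closed set `B` of
one-dimensional Hausdorff measure zero in `N` such that

* over the complement of `B` the map `f` is injective and of class `C^∞`;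
* the fibres over the points of `B` have neighbourhoods which embed smoothly in `ℝ⁴`.

There may be uncountably many fibres which are not points, `f` can be constant on open sets, the
fibres can be wild arcs or dendrites contained in open cells, and nothing is assumed about the way in
which the fibres are arranged. The two conclusions:

(A) Every neighbourhood of the graph of `f` contains the graph of a homeomorphism `M → N` of class
`C^∞` (whose inverse need not be differentiable), and this homeomorphism agrees with `f` over the
complement of a given neighbourhood of `B`. In particular `M` and `N` are homeomorphic.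

(B) Suppose that, for the parameters `t` in some set `T` of non-zero (outer) measure, `f` has no
points of rank one or two over the fibre `S³` of `t` off `B`. Then there is a homeomorphism `M → N`
which is a local diffeomorphism at all points but one, so that the complements of a point in `M` and
in `N` are diffeomorphic.

Proof of (A): the set `B` is covered by finitely many small disjoint open cells (boxes in charts,
whose faces are disjoint from `B`); the preimages of the cells are open cells by the recognition
theorem for `ℝ^n` (level sets, Mazur's argument, see `MP_126a0d_gt/CollapsingMaps`), and over the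
cells `f` is replaced by smooth homeomorphisms which agree with `f` near the ends. Proof of (B):
almost all the fibres of `N` are disjoint from `B` and from the image of the points of rank zero. Over
a neighbourhood of such a fibre the homeomorphism of (A) agrees with `f` and has rank at least three;
there it is changed to a local diffeomorphism, and then along the core arc of the 1-handle
of `N`. The rest of `N` is an open cell, its preimage is an open cell, and the map extends over the
cells with one exceptional point (library `Pool/Agent/N550/RF`, `Pool/Agent/N550/KH`).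
-/

set_option autoImplicit false

open Set Filter Topology Metric Function
open scoped Manifold ContDiff

noncomputable section

namespace Pool.Agent.Results.MP_6db3ee_gt.CollapsingSphereBundle

/-- `ℝ⁴` -/
abbrev R4 : Type := EuclideanSpace ℝ (Fin 4)

/-- the 3-sphere, the unit sphere of `ℝ⁴` -/
abbrev S3 : Type := sphere (0 : EuclideanSpace ℝ (Fin 4)) 1

section defs

variable {M N : Type} [TopologicalSpace M] [ChartedSpace R4 M] [TopologicalSpace N]
  [ChartedSpace R4 N]

/-- `f` is of class `C^∞` at `x` (no condition is imposed on the derivative) -/
def SmoothAt (f : M → N) (x : M) : Prop := ContMDiffAt (𝓡 4) (𝓡 4) ∞ f x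

/-- the derivative of `f` at `x`, as a linear map from `ℝ⁴` to `ℝ⁴` (in the preferred charts) -/
def der (f : M → N) (x : M) : R4 →L[ℝ] R4 := mfderiv (𝓡 4) (𝓡 4) f x

/-- the rank of the derivative of `f` at `x` -/
def rank (f : M → N) (x : M) : ℕ := Module.finrank ℝ (LinearMap.range (der f x).toLinearMap)

/-- `f` is a local diffeomorphism (of class `C^∞`) at `x` -/
def LocDiff (f : M → N) (x : M) : Prop := IsLocalDiffeomorphAt (𝓡 4) (𝓡 4) ∞ f x

/-- a set with one-dimensional Hausdorff measure zero (in the preferred charts) -/
def LengthZero (B : Set N) : Prop :=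
  ∀ x₀ : N, MeasureTheory.Measure.hausdorffMeasure 1
    (chartAt R4 x₀ '' ((chartAt R4 x₀).source ∩ B) : Set R4) = 0

/-- the set `F` has an open neighbourhood `U` with a smooth embedding `i` in `ℝ⁴` -/
def EmbedsNear (F : Set M) : Prop :=
  ∃ (U : Set M) (i : M → R4), IsOpen U ∧ F ⊆ U ∧ InjOn i U ∧ ∀ x ∈ U, LocDiff i x

/-- over the complement of `B` the map `f` is injective and of class `C^∞` -/
def GoodOff (f : M → N) (B : Set N) : Prop :=
  ∀ x, f x ∉ B → SmoothAt f x ∧ ∀ y, f y = f x → y = x

/-- the fibres over the points of `B` have neighbourhoods which embed in `ℝ⁴` -/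
def FibresEmbed (f : M → N) (B : Set N) : Prop := ∀ y ∈ B, EmbedsNear (f ⁻¹' {y})

/-- `f` is a collapsing map with exceptional values in `B` -/
structure IsCollapsing (f : M → N) (B : Set N) : Prop where
  continuous : Continuous f
  surjective : Surjective f
  closed : IsClosed B
  thin : LengthZero B
  good : GoodOff f B
  fibres : FibresEmbed f B

/-- `g` is of class `C^∞`, its graph is contained in `O`, and `g` agrees with `f` at the points which
`f` does not map to `W` -/
def IsSmoothApprox (f g : M → N) (O : Set (M × N)) (W : Set N) : Prop :=
  (∀ x, SmoothAt g x) ∧ (∀ x, (x, g x) ∈ O) ∧ ∀ x, f x ∉ W → g x = f x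

/-- `f` can be approximated by homeomorphisms of class `C^∞` which agree with it over the complement
of a given neighbourhood of `B` -/
def SmoothlyApproximable (f : M → N) (B : Set N) : Prop :=
  ∀ (O : Set (M × N)) (W : Set N), IsOpen O → (∀ x, (x, f x) ∈ O) → IsOpen W → B ⊆ W →
    ∃ g : M ≃ₜ N, IsSmoothApprox f g O W

/-- `P : ℝ × S³ → N` is a local diffeomorphism -/
def LocDiffProd (P : ℝ × S3 → N) : Prop :=
  ∀ a, IsLocalDiffeomorphAt (𝓘(ℝ, ℝ).prod (𝓡 3)) (𝓡 4) ∞ P a

/-- `P` is the projection of `ℝ × S³` onto its quotient `N` by `(t, u) ↦ (t + 1, ρ u)` -/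
structure IsSphereBundle (ρ : Equiv.Perm S3) (P : ℝ × S3 → N) : Prop where
  surjective : Surjective P
  locDiff : LocDiffProd P
  fibres : ∀ a b, P a = P b ↔ ∃ k : ℤ, b.1 = a.1 + k ∧ b.2 = (ρ ^ k) a.2

/-- there are no points of rank one or two, with values off `B`, over the fibres with parameter in
`T` -/
def NoRankOneTwoOver (f : M → N) (B : Set N) (P : ℝ × S3 → N) (T : Set ℝ) : Prop :=
  ∀ x, f x ∉ B → (rank f x = 1 ∨ rank f x = 2) → ∀ t ∈ T, ∀ u, f x ≠ P (t, u)

/-- `G` is a local diffeomorphism at all points but one -/
def LocDiffOffPoint (G : M → N) : Prop := ∃ x₀ : M, ∀ x, x ≠ x₀ → LocDiff G x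

/-- There is a homeomorphism `M → N` which is a local diffeomorphism at all points but one, provided
that `f` has no points of rank one or two over the fibres with parameter in a set of non-zero outer
measure -/
def DiffeoOffPoint (f : M → N) (B : Set N) (P : ℝ × S3 → N) : Prop :=
  ∀ T : Set ℝ, MeasureTheory.volume T ≠ 0 → NoRankOneTwoOver f B P T →
    ∃ G : M ≃ₜ N, LocDiffOffPoint G

end defs

theorem result (M N : Type) [TopologicalSpace M] [CompactSpace M] [T2Space M] [ChartedSpace R4 M]
    [IsManifold (𝓡 4) ∞ M] [TopologicalSpace N] [T2Space N] [ChartedSpace R4 N]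
    [IsManifold (𝓡 4) ∞ N] (ρ : Equiv.Perm S3) (P : ℝ × S3 → N) (hP : IsSphereBundle ρ P)
    (f : M → N) (B : Set N) (hf : IsCollapsing f B) :
    SmoothlyApproximable f B ∧ DiffeoOffPoint f B P := by
  have hNc : CompactSpace N := by
    rw [← isCompact_univ_iff, ← hf.surjective.range_eq]
    exact isCompact_range hf.continuous
  have hC : Pool.Agent.U898.CM.Mods.Cls 3 f B :=
    ⟨hf.continuous, hf.surjective, fun K hK => (hK.isClosed.preimage hf.continuous).isCompact,
      hf.good, hf.fibres⟩
  refine ⟨fun O W hO hfO hW hBW => ?_, fun T hT hr => ?_⟩
  · exact Pool.Agent.U898.CM.Apx.approx (m := 3) hC hf.closed.isCompact hf.thin O hO hfO W hW hBW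
  · exact Pool.Agent.U898.SB.main M N ρ P ⟨hP.surjective, hP.locDiff, hP.fibres⟩ f B hC hf.closed
      hf.thin T hT hr

end Pool.Agent.Results.MP_6db3ee_gt.CollapsingSphereBundle
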